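import Pool.Agent.PSS.StmtsS0

open scoped BigOperators

namespace Pool.Agent.PSS.S0.H5

open Pool.Agent.PSS

theorem trs : TrsStmt := by
  intro R V A K _ _ _ _ _ _ α lam x y hRF a ha b hb
  -- centraliser
  have hcen : ∀ c ∈ FxR (cw R α) ⊤, ∀ v : V, α v * c = c * α v := by
    intro c hc v
    have h1 : α v * (c * α v⁻¹) = c := hc v trivial
    have h2 : α v⁻¹ * α v = 1 := by rw [← map_mul, inv_mul_cancel, map_one]
    calc α v * c = α v * c * (α v⁻¹ * α v) := by rw [h2, mul_one]
      _ = (α v * (c * α v⁻¹)) * α v := by simp only [mul_assoc]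
      _ = c * α v := by rw [h1]
  have hca := hcen a ha
  have hcb := hcen b hb
  let E : A → A := fun c => ∑ v : V, lam (α v⁻¹ * c) • α v
  have h1 : ∀ c : A, ∑ k, x k * E (y k * c) = c := by
    intro c
    rw [← hRF.e1 c]
    conv_rhs => rw [hRF.e1 c]
    conv_lhs => rw [hRF.e1 c]
    refine Eq.trans ?_ (hRF.e1 c)
    refine Finset.sum_congr rfl (fun k _ => ?_)
    rw [Finset.mul_sum]
    refine Finset.sum_congr rfl (fun v _ => ?_)
    rw [mul_smul_comm, mul_assoc]
  have h2 : ∀ c : A, ∑ l, E (c * x l) * y l = c := by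
    intro c
    refine Eq.trans ?_ (hRF.e2 c)
    refine Finset.sum_congr rfl (fun l _ => ?_)
    rw [Finset.sum_mul, ← Equiv.sum_comp (Equiv.inv V)]
    refine Finset.sum_congr rfl (fun v _ => ?_)
    have e : lam (α v * (c * x l)) = lam (c * (x l * α v)) := by
      rw [hRF.sym, mul_assoc]
    simp only [Equiv.inv_apply, inv_inv, smul_mul_assoc]
    rw [e]
  have h3 : ∀ c : A, a * E c = E c * a := by
    intro c
    simp only [E, Finset.mul_sum, Finset.sum_mul]
    refine Finset.sum_congr rfl (fun v _ => ?_)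
    rw [mul_smul_comm, smul_mul_assoc, hca v]
  have h4 : ∀ c : A, E (b * c) = E (c * b) := by
    intro c
    refine Finset.sum_congr rfl (fun v _ => ?_)
    have e : lam (α v⁻¹ * (b * c)) = lam (α v⁻¹ * (c * b)) := by
      rw [← mul_assoc, hcb, mul_assoc, hRF.sym, mul_assoc]
    rw [e]
  calc ∑ k, x k * (a * b) * y k
      = ∑ k, x k * (a * ∑ l, E (b * y k * x l) * y l) := by
        refine Finset.sum_congr rfl (fun k _ => ?_)
        rw [h2 (b * y k)]
        simp only [mul_assoc]
    _ = ∑ k, ∑ l, x k * E (y k * (x l * b)) * (a * y l) := by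
        refine Finset.sum_congr rfl (fun k _ => ?_)
        rw [Finset.mul_sum, Finset.mul_sum]
        refine Finset.sum_congr rfl (fun l _ => ?_)
        have e : E (b * y k * x l) = E (y k * (x l * b)) := by
          rw [mul_assoc, h4, mul_assoc]
        rw [e, ← mul_assoc a, h3]
        simp only [mul_assoc]
    _ = ∑ l, (∑ k, x k * E (y k * (x l * b))) * (a * y l) := by
        rw [Finset.sum_comm]
        refine Finset.sum_congr rfl (fun l _ => ?_)
        rw [Finset.sum_mul]
    _ = ∑ l, x l * (b * a) * y l := by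
        refine Finset.sum_congr rfl (fun l _ => ?_)
        rw [h1 (x l * b)]
        simp only [mul_assoc]

end Pool.Agent.PSS.S0.H5
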