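import Pool.Agent.PSS.StmtsS3

open scoped BigOperators

namespace Pool.Agent.PSS.S3.H5

open Pool.Agent.PSS Pool.Agent.PSS.S0

open Classical in
theorem exTv {V : Type} [CommGroup V] [Fintype V] (W : Subgroup V) :
    ∃ T : Finset V, Pool.Agent.PFC.IsTv W ⊤ T ∧ T.card = W.index := by
  refine ⟨(Finset.univ : Finset (V ⧸ W)).image Quotient.out, ⟨fun s _ => trivial, ?_⟩, ?_⟩
  · intro p _
    refine ⟨Quotient.out (p : V ⧸ W), ⟨?_, ?_⟩, ?_⟩
    · exact Finset.mem_image.mpr ⟨_, Finset.mem_univ _, rfl⟩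
    · exact QuotientGroup.eq.mp (QuotientGroup.out_eq' (p : V ⧸ W))
    · rintro s ⟨hs, hsp⟩
      obtain ⟨q, _, rfl⟩ := Finset.mem_image.mp hs
      have h := QuotientGroup.eq.mpr hsp
      rw [QuotientGroup.out_eq'] at h
      rw [h]
  · rw [Finset.card_image_of_injective _ (Quotient.out_injective), Finset.card_univ]
    rw [Subgroup.index, Nat.card_eq_fintype_card]
    exact Fintype.card_congr (Equiv.refl _)

theorem div (hRFS : RfsStmt) (hIND : IndStmt) : DivStmt := by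
  intro ℓ _ F V A K K0 _ _ _ _ _ _ _ _ α W _ lam x y x0 y0 hV hW hdvd v
  obtain ⟨T, hT, hcard⟩ := exTv W
  have hR := hRFS F V A K0 α lam x0 y0 W T hV hT
  have hfix : α v ∈ FxR (cw F (α.comp W.subtype)) ⊤ := by
    intro w _
    change α w * (α v * α (w : V)⁻¹) = α v
    rw [← map_mul, ← map_mul]
    congr 1
    rw [mul_comm v, mul_inv_cancel_left]
  rw [hIND F W A K (K0 × T) (α.comp W.subtype) lam x y _ _ hW hR (α v) hfix]
  have e : ∀ p : K0 × T, x0 p.1 * α (p.2 : V) * α v * (α (p.2 : V)⁻¹ * y0 p.1)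
      = x0 p.1 * α v * y0 p.1 := by
    intro p
    have h1 : α (p.2 : V) * α v * α (p.2 : V)⁻¹ = α v := by
      rw [← map_mul, ← map_mul]
      congr 1
      rw [mul_comm (p.2 : V), mul_inv_cancel_right]
    calc x0 p.1 * α (p.2 : V) * α v * (α (p.2 : V)⁻¹ * y0 p.1)
        = x0 p.1 * (α (p.2 : V) * α v * α (p.2 : V)⁻¹) * y0 p.1 := by simp only [mul_assoc]
      _ = x0 p.1 * α v * y0 p.1 := by rw [h1]
  rw [Finset.sum_congr rfl (fun p _ => e p), Fintype.sum_prod_type]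
  simp only
  rw [Finset.sum_comm, Finset.sum_const, Finset.card_univ, Fintype.card_coe, hcard]
  obtain ⟨m, hm⟩ := hdvd
  rw [hm, ← Nat.cast_smul_eq_nsmul F, Nat.cast_mul, CharP.cast_eq_zero, zero_mul, zero_smul]

end Pool.Agent.PSS.S3.H5
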