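import Pool.Agent.PSS.StmtsS5

/-!
# Squad PSS, row LNT (helper5)
-/

open scoped BigOperators TensorProduct

noncomputable section

namespace Pool.Agent.PSS.H5

open Pool.Agent.PFC (tw IsTv)
open Pool.Agent.PFD.D2b (FrR)
open Pool.Agent.PSS.S5 (Lc LntStmt)

theorem isPGroup_twW {V : Type} [CommGroup V] {ℓ : ℕ} (hp : IsPGroup ℓ V) (W : Subgroup V) :
    IsPGroup ℓ (twW W (1 : MulAut W)) := by
  rintro ⟨x, w, hw⟩
  obtain ⟨k, hk⟩ := hp (w : V)
  refine ⟨k, Subtype.ext ?_⟩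
  change x ^ ℓ ^ k = 1
  rw [← hw]
  exact Prod.ext hk hk

theorem lnt (hF : FrbStmt) : LntStmt := by
  classical
  intro ℓ _ F V E A B _ _ _ _ _ _ _ _ _ φ α W N hp hL a ha hb
  obtain ⟨Ω, fΩ, aΩ, b0, c0, hfr, hst⟩ := hL
  have hl : (ℓ : F) = 0 := CharP.cast_eq_zero F ℓ
  obtain ⟨h1, h2⟩ := hF ℓ F (V × V) A Ω (bw F α) b0 c0 (twW W (1 : MulAut W)) hl
    (isPGroup_twW hp W) inferInstance hfr
  have h3 := h2 a ha
  set a' : A := ∑ ω : Fp Ω (twW W (1 : MulAut W)), c0 ω.1 a • b0 ω.1 with ha'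
  -- the conjugates of `a`
  have key : ∀ v : V, bw F α (v, v) a - a ∈ BKR (bw F α) (twW W (1 : MulAut W)) := by
    intro v
    have e1 : α v ∈ FxR (bw F α) (twW W (1 : MulAut W)) := al_mem_tw v W
    have e2 : α v⁻¹ ∈ FxR (bw F α) (twW W (1 : MulAut W)) := al_mem_tw v⁻¹ W
    have e3 : a * α v⁻¹ ∈ FxR (bw F α) (twW W (1 : MulAut W)) := by
      rw [mem_tw] at ha e2 ⊢
      intro w
      rw [← mul_assoc, ha w, mul_assoc, mul_assoc]
      exact congrArg (a * ·) (e2 w)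
    have e4 : α v * (a * α v⁻¹) ∈ FxR (bw F α) (twW W (1 : MulAut W)) := by
      rw [mem_tw] at e1 e3 ⊢
      intro w
      rw [← mul_assoc, e1 w, mul_assoc, mul_assoc]
      exact congrArg (α v * ·) (e3 w)
    have e5 : bw F α (v, v) a = α v * (a * α v⁻¹) := rfl
    rw [e5, ← N.ker 1 _ ((FxR (bw F α) _).sub_mem e4 ha), map_sub, sub_eq_zero]
    have e6 := N.mul 1 1 (α v) e1 (a * α v⁻¹) e3
    have e7 := N.mul 1 1 a ha (α v⁻¹) e2
    rw [mul_one] at e6 e7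
    rw [e6, e7, ← N.nwh_apply, ← N.nwh_apply, ← mul_assoc, mem_cw.1 hb v (Subgroup.mem_top v),
      mul_assoc, ← map_mul, mul_inv_cancel, map_one, mul_one]
  refine ⟨a', ?_, ?_⟩
  · intro v _
    change bw F α (v, v) a' = a'
    rw [ha', map_sum]
    refine Fintype.sum_equiv (MulAction.toPerm ((v, v) : V × V)) _ _ ?_
    intro ω
    have e1 : (((MulAction.toPerm ((v, v) : V × V)) ω :
      Fp Ω (twW W (1 : MulAut W))) : Fp Ω (twW W (1 : MulAut W))).1 =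
        ((v, v) : V × V) • ω.1 := rfl
    rw [e1, map_smul, ← hfr.1]
    have e2 : c0 (((v, v) : V × V) • ω.1) (bw F α (v, v) a) = c0 ω.1 a := hfr.2.1 (v, v) ω.1 a
    have e3 : c0 (((v, v) : V × V) • ω.1) (bw F α (v, v) a - a) = 0 := by
      refine h1 _ ?_ _ (key v)
      exact (((v, v) : V × V) • ω).2
    rw [map_sub, sub_eq_zero] at e3
    rw [← e3, e2]
  · have e1 := (N.ker 1 _ (BKR_le_FxR h3)).2 h3
    rw [map_sub, sub_eq_zero] at e1
    exact e1.symm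

end Pool.Agent.PSS.H5
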